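import Mathlib
import Pool.Agent.Lib.helper29.Shrink3

set_option autoImplicit false

namespace Pool.Agent.Results.MP_9d6213_co.NoHelly

open Pool.Agent.Lib.H29.Shrink

/-- In no dimension `d ≥ 2` is there a Helly number for continuous shrinking. -/
theorem result : ∀ d : ℕ, 2 ≤ d → ∀ m : ℕ, ¬ IsHellyNumber d m :=
  no_helly

end Pool.Agent.Results.MP_9d6213_co.NoHelly
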